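import Pool.Agent.Helper25.CanonicalEdgeOrderProof

set_option autoImplicit false

open Pool.Agent.Helper25.CanonicalEdgeOrder

/-- `2 ^ 2 ^ ⌊(n - 5) / 2⌋ < T(n) ≤ 2 ^ 2 ^ (48 (n - 1))` for all `n ≥ 5`. -/
theorem Pool.Agent.Results.MP_cb3b95_co.DoubleExponential.result (n : ℕ) (hn : 5 ≤ n) :
    2 ^ 2 ^ ((n - 5) / 2) < T n ∧ T n ≤ 2 ^ 2 ^ (48 * (n - 1)) :=
  main n hn
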